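import Pool.Agent.H.MP_b94b02_co.B

set_option autoImplicit false

namespace Pool.Agent.Results.MP_b94b02_co.Answer

open Polynomial Finset

noncomputable def A (n : ℕ) (s : ℤˣ) : ℝ[X] :=
  ∑ σ ∈ (univ : Finset (Equiv.Perm (Fin n))).filter (fun σ => Equiv.Perm.sign σ = s),
    X ^ (univ.filter (fun i => i < σ i)).card

theorem result :
    (∃ z : ℂ, aeval z (A 5 1) = 0 ∧ z.im ≠ 0) ∧
    ∀ n : ℕ, 6 ≤ n → ∀ (s : ℤˣ) (z : ℂ), aeval z (A n s) = 0 → z.im = 0 := by
  open Pool.Agent.H.MP_b94b02_co in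
  constructor
  · have key : ∀ z : ℂ, z - 1 ≠ 0 → 2 * ((-2 / (z - 1)) ^ 4 * aeval z (A 5 1)) =
        aeval ((z + 1) / (z - 1)) (B 4 + C (((1 : ℤˣ) : ℤ) * 2 ^ 4 : ℝ)) := by
      intro z h1
      rw [← part, map_mul, map_sum, A, map_sum, mul_sum]
      congr 1
      · simp
      refine sum_congr rfl fun σ _ => ?_
      obtain ⟨k, hk⟩ := Nat.exists_eq_add_of_le (ex_le σ)
      have a1 : -((z + 1) / (z - 1)) - 1 = -2 / (z - 1) * z := by field_simp; ring
      have a2 : 1 - (z + 1) / (z - 1) = -2 / (z - 1) := by field_simp; ring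
      simp only [T, map_mul, map_pow, map_sub, map_neg, aeval_X, map_one, a1, a2, ← ex.eq_1]
      generalize ex σ = e at hk
      rw [show 4 - e = k by omega, mul_pow, hk, pow_add]
      ring
    have B4 : B 4 = C 16 - C 120 * X ^ 2 + C 120 * X ^ 4 := by
      simp only [B, derivative_mul, derivative_sub, derivative_one, derivative_X_pow, map_ofNat,
        derivative_add, derivative_X, derivative_zero, Nat.cast_ofNat,
        derivative_ofNat, Nat.add_one_sub_one, pow_one]
      ring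
    obtain ⟨u, hu⟩ : ∃ u : ℂ, u ^ 2 = -1 / 60 := IsAlgClosed.exists_pow_nat_eq _ two_pos
    obtain ⟨y, hy⟩ : ∃ y : ℂ, y ^ 2 = 1 / 2 + u := IsAlgClosed.exists_pow_nat_eq _ two_pos
    have hroot : 32 - 120 * y ^ 2 + 120 * y ^ 4 = 0 := by
      rw [show y ^ 4 = (y ^ 2) ^ 2 by ring, hy]
      linear_combination 120 * hu
    have hy1 : y - 1 ≠ 0 := by
      intro h
      rw [sub_eq_zero.1 h] at hroot
      norm_num at hroot
    have hz1 : (y + 1) / (y - 1) - 1 ≠ 0 := by
      have : (y + 1) / (y - 1) - 1 = 2 / (y - 1) := by field_simp; ring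
      rw [this]; exact div_ne_zero two_ne_zero hy1
    have hyy : ((y + 1) / (y - 1) + 1) / ((y + 1) / (y - 1) - 1) = y := by
      rw [div_eq_iff hz1]; field_simp; ring
    refine ⟨(y + 1) / (y - 1), ?_, ?_⟩
    · have := key _ hz1
      rw [hyy, B4] at this
      simp only [map_add, map_sub, map_mul, map_pow, aeval_X, aeval_C, Units.val_one,
        Int.cast_one, map_one, map_ofNat] at this
      have h2 : 2 * ((-2 / ((y + 1) / (y - 1) - 1)) ^ 4 * aeval ((y + 1) / (y - 1)) (A 5 1)) = 0 := by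
        rw [this]; linear_combination hroot
      simpa [hz1] using h2
    · intro him
      obtain ⟨x, hx⟩ : ∃ x : ℝ, (y + 1) / (y - 1) = x :=
        ⟨_, Complex.ext rfl (by simpa using him)⟩
      rw [hx] at hyy
      rw [← hyy] at hroot
      have : (32 - 120 * ((x + 1) / (x - 1)) ^ 2 + 120 * ((x + 1) / (x - 1)) ^ 4 : ℝ) = 0 := by
        exact_mod_cast hroot
      nlinarith [sq_nonneg (((x + 1) / (x - 1)) ^ 2 - 1 / 2)]
  · intro n hn s z hz
    obtain ⟨m, rfl⟩ : ∃ m, n = m + 1 := ⟨n - 1, by omega⟩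
    refine main m (by omega) s z ?_
    rw [A, map_sum] at hz
    simpa [ex] using hz

end Pool.Agent.Results.MP_b94b02_co.Answer
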